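import Mathlib
import Pool.Agent.H12R3.VR.Stmts

/-!
Project H12-VR, TaskConj: an affine vector field whose flow preserves the closure of the graph can be
transported by an affine automorphism of the graph.
-/

set_option autoImplicit false

open Filter Topology

namespace Pool.Agent.H135R3.VR

open H12VR

/-- the affine map `P` on the plane -/
def pm (P : Fin 6 → ℝ) (p : ℝ × ℝ) : ℝ × ℝ := (ax P p.1 p.2, ay P p.1 p.2)

lemma pm_cont (P : Fin 6 → ℝ) : Continuous (pm P) := by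
  unfold pm ax ay
  fun_prop

lemma pm_inv (P : Fin 6 → ℝ) (h : dt P ≠ 0) (p : ℝ × ℝ) : pm (inv P) (pm P p) = p := by
  obtain ⟨x, y⟩ := p
  have hd : dt P = P 0 * P 4 - P 1 * P 3 := rfl
  have h0 : (inv P) 0 = P 4 / dt P := rfl
  have h1 : (inv P) 1 = -P 1 / dt P := rfl
  have h2 : (inv P) 2 = (P 1 * P 5 - P 4 * P 2) / dt P := rfl
  have h3 : (inv P) 3 = -P 3 / dt P := rfl
  have h4 : (inv P) 4 = P 0 / dt P := rfl
  have h5 : (inv P) 5 = (P 3 * P 2 - P 0 * P 5) / dt P := rfl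
  simp only [pm, ax, ay, h0, h1, h2, h3, h4, h5, Prod.mk.injEq]
  constructor
  · field_simp
    rw [hd]
    ring
  · field_simp
    rw [hd]
    ring

/-- the transported field -/
noncomputable def tr (P X : Fin 6 → ℝ) : Fin 6 → ℝ :=
  ![(P 4 * (X 0 * P 0 + X 1 * P 3) - P 1 * (X 3 * P 0 + X 4 * P 3)) / dt P,
    (P 4 * (X 0 * P 1 + X 1 * P 4) - P 1 * (X 3 * P 1 + X 4 * P 4)) / dt P,
    (P 4 * (X 0 * P 2 + X 1 * P 5 + X 2) - P 1 * (X 3 * P 2 + X 4 * P 5 + X 5)) / dt P,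
    (P 0 * (X 3 * P 0 + X 4 * P 3) - P 3 * (X 0 * P 0 + X 1 * P 3)) / dt P,
    (P 0 * (X 3 * P 1 + X 4 * P 4) - P 3 * (X 0 * P 1 + X 1 * P 4)) / dt P,
    (P 0 * (X 3 * P 2 + X 4 * P 5 + X 5) - P 3 * (X 0 * P 2 + X 1 * P 5 + X 2)) / dt P]

lemma tr_eq (P X : Fin 6 → ℝ) (h : dt P ≠ 0) (x y : ℝ) :
    P 0 * (fd (tr P X) (x, y)).1 + P 1 * (fd (tr P X) (x, y)).2 =
      (fd X (ax P x y, ay P x y)).1 ∧
    P 3 * (fd (tr P X) (x, y)).1 + P 4 * (fd (tr P X) (x, y)).2 =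
      (fd X (ax P x y, ay P x y)).2 := by
  have hd : dt P = P 0 * P 4 - P 1 * P 3 := rfl
  have h0 : (tr P X) 0 =
    (P 4 * (X 0 * P 0 + X 1 * P 3) - P 1 * (X 3 * P 0 + X 4 * P 3)) / dt P := rfl
  have h1 : (tr P X) 1 =
    (P 4 * (X 0 * P 1 + X 1 * P 4) - P 1 * (X 3 * P 1 + X 4 * P 4)) / dt P := rfl
  have h2 : (tr P X) 2 =
    (P 4 * (X 0 * P 2 + X 1 * P 5 + X 2) - P 1 * (X 3 * P 2 + X 4 * P 5 + X 5)) / dt P := rfl
  have h3 : (tr P X) 3 =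
    (P 0 * (X 3 * P 0 + X 4 * P 3) - P 3 * (X 0 * P 0 + X 1 * P 3)) / dt P := rfl
  have h4 : (tr P X) 4 =
    (P 0 * (X 3 * P 1 + X 4 * P 4) - P 3 * (X 0 * P 1 + X 1 * P 4)) / dt P := rfl
  have h5 : (tr P X) 5 =
    (P 0 * (X 3 * P 2 + X 4 * P 5 + X 5) - P 3 * (X 0 * P 2 + X 1 * P 5 + X 2)) / dt P := rfl
  simp only [fd, ax, ay, h0, h1, h2, h3, h4, h5]
  constructor
  · field_simp
    rw [hd]
    ring
  · field_simp
    rw [hd]
    ring

lemma pm_mem (f : ℝ → ℝ) (P : Fin 6 → ℝ) (hP : Aut f P) {p : ℝ × ℝ} (hp : p ∈ closure (gr f)) :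
    pm P p ∈ closure (gr f) := by
  refine map_mem_closure (pm_cont P) hp ?_
  intro q hq
  obtain ⟨x, y⟩ := q
  have hq' : y = f x := hq
  subst hq'
  exact (hP.2.1 x).symm

lemma pm_inv_mem (f : ℝ → ℝ) (P : Fin 6 → ℝ) (hP : Aut f P) {p : ℝ × ℝ}
    (hp : p ∈ closure (gr f)) : pm (inv P) p ∈ closure (gr f) := by
  refine map_mem_closure (pm_cont (inv P)) hp ?_
  intro q hq
  obtain ⟨z, y⟩ := q
  have hq' : y = f z := hq
  subst hq'
  obtain ⟨x, hx⟩ := hP.2.2 z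
  have hx' : ax P x (f x) = z := hx
  have h1 : ((z, f z) : ℝ × ℝ) = pm P (x, f x) := by
    rw [pm, ← hP.2.1 x, hx']
  show pm (inv P) (z, f z) ∈ gr f
  rw [h1, pm_inv P hP.1]
  rfl

theorem t : H12VR.TaskConj := by
  intro f P X hP hX
  refine ⟨tr P X, ?_, fun x y => tr_eq P X hP.1 x y⟩
  intro γ hγ h0 s
  have hδ : ∀ s, HasDerivAt (fun s => pm P (γ s)) (fd X (pm P (γ s))) s := by
    intro s
    have h1 : HasDerivAt (fun s => (γ s).1) (fd (tr P X) (γ s)).1 s := (hγ s).fst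
    have h2 : HasDerivAt (fun s => (γ s).2) (fd (tr P X) (γ s)).2 s := (hγ s).snd
    have h3 : HasDerivAt (fun s => P 0 * (γ s).1 + P 1 * (γ s).2 + P 2)
        (P 0 * (fd (tr P X) (γ s)).1 + P 1 * (fd (tr P X) (γ s)).2) s :=
      ((h1.const_mul (P 0)).add (h2.const_mul (P 1))).add_const (P 2)
    have h4 : HasDerivAt (fun s => P 3 * (γ s).1 + P 4 * (γ s).2 + P 5)
        (P 3 * (fd (tr P X) (γ s)).1 + P 4 * (fd (tr P X) (γ s)).2) s :=
      ((h1.const_mul (P 3)).add (h2.const_mul (P 4))).add_const (P 5)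
    have h5 := h3.prodMk h4
    have h6 := tr_eq P X hP.1 (γ s).1 (γ s).2
    have h7 : (((γ s).1, (γ s).2) : ℝ × ℝ) = γ s := rfl
    rw [h7] at h6
    rw [h6.1, h6.2] at h5
    exact h5
  have h1 : pm P (γ 0) ∈ closure (gr f) := pm_mem f P hP h0
  have h2 : pm P (γ s) ∈ closure (gr f) := hX (fun s => pm P (γ s)) hδ h1 s
  have h3 := pm_inv_mem f P hP h2
  rwa [pm_inv P hP.1] at h3

end Pool.Agent.H135R3.VR
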